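import Pool.Agent.Lib.MP_ced6ff_co.Proof

/-!
# `h n ≤ h (2 * n)` for the number `h n` of Hadamard equivalence classes of order `n`
-/

set_option autoImplicit false

namespace Pool.Agent.Results.MP_ced6ff_co.ClassesDoubling

/-- **Main theorem.** For every `n`, the number of Hadamard equivalence classes of order `n` is
at most the number of Hadamard equivalence classes of order `2 * n`. -/
theorem result : ∀ n : ℕ, Pool.Agent.Lib.MP_ced6ff_co.h n ≤ Pool.Agent.Lib.MP_ced6ff_co.h (2 * n) :=
  Pool.Agent.Lib.MP_ced6ff_co.main_theorem

end Pool.Agent.Results.MP_ced6ff_co.ClassesDoubling
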